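import Pool.Agent.Helper91.PL.SBasic

/-!
# MP_bae8ce_ag, module S6 : the combinatorial case distinction (linear algebra)
-/

set_option autoImplicit false
set_option linter.unusedSectionVars false

open Finset

namespace PL

noncomputable section

variable {k : Type} [Field k] [Fintype k] [DecidableEq k] {N : ℕ}

/-- Two rows of an invertible matrix are not proportional. -/
theorem s6_not_prop (h hi : Matrix (Fin N) (Fin N) k) (hh : h * hi = 1) (i i' : Fin N)
    (hne : i ≠ i') (c : k) (H : ∀ j, h i' j = c * h i j) : False := by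
  have h1 : (h * hi) i' i' = 1 := by rw [hh]; simp
  have h2 : (h * hi) i i' = 0 := by rw [hh]; simp [hne]
  rw [Matrix.mul_apply] at h1 h2
  have h3 : ∑ j, h i' j * hi j i' = c * ∑ j, h i j * hi j i' := by
    rw [Finset.mul_sum]
    refine Finset.sum_congr rfl fun j _ => ?_
    rw [H j]; ring
  rw [h1, h2] at h3
  simp at h3

/-- Step A: the support of a row lies in one block. -/
theorem s6_row (τ : Fin N → Fin N → Bool) (hτ : Equivalence fun i j => τ i j = true)
    (h hi : Matrix (Fin N) (Fin N) k) (hh : h * hi = 1) (i i' : Fin N) (hne : i ≠ i')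
    (H : ∀ j l, τ j l = false → h i j * h i' l = h i l * h i' j) (j l : Fin N)
    (hj : h i j ≠ 0) (hl : h i l ≠ 0) : τ j l = true := by
  by_contra hjl
  have hjl : τ j l = false := by simpa using hjl
  refine s6_not_prop h hi hh i i' hne (h i' j / h i j) fun m => ?_
  by_cases hm : τ j m = true
  · have hlm : τ l m = false := by
      by_contra hlm
      have hlm : τ l m = true := by simpa using hlm
      have : τ j l = true := hτ.trans hm (hτ.symm hlm)
      rw [hjl] at this
      exact absurd this (by simp)
    have e1 := H l m hlm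
    have e2 := H j l hjl
    rw [div_mul_eq_mul_div, eq_div_iff hj]
    have e3 : h i l * (h i' m * h i j) = h i l * (h i' j * h i m) := by
      calc h i l * (h i' m * h i j) = (h i l * h i' m) * h i j := by ring
        _ = (h i m * h i' l) * h i j := by rw [e1]
        _ = h i m * (h i j * h i' l) := by ring
        _ = h i m * (h i l * h i' j) := by rw [e2]
        _ = h i l * (h i' j * h i m) := by ring
    exact mul_left_cancel₀ hl e3
  · have hm : τ j m = false := by simpa using hm
    have e1 := H j m hm
    rw [div_mul_eq_mul_div, eq_div_iff hj]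
    linear_combination e1

/-- The claim `(*)`: both rows are supported in one common block. -/
theorem s6_star (τ : Fin N → Fin N → Bool) (hτ : Equivalence fun i j => τ i j = true)
    (h hi : Matrix (Fin N) (Fin N) k) (hh : h * hi = 1) (i i' : Fin N) (hne : i ≠ i')
    (H : ∀ j l, τ j l = false → h i j * h i' l = h i l * h i' j) (j l : Fin N)
    (hj : h i j ≠ 0) (hl : h i' l ≠ 0) : τ j l = true := by
  by_contra hjl
  have hjl : τ j l = false := by simpa using hjl
  have e := H j l hjl
  have h1 : h i l * h i' j ≠ 0 := by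
    rw [← e]; exact mul_ne_zero hj hl
  have h2 : h i l ≠ 0 := left_ne_zero_of_mul h1
  have := s6_row τ hτ h hi hh i i' hne H j l hj h2
  rw [hjl] at this
  exact absurd this (by simp)

theorem case_c (π π' : Fin N → Fin N → Bool)
    (hπ : Equivalence fun i j => π i j = true) (hπ' : Equivalence fun i j => π' i j = true)
    (g ginv : Matrix (Fin N) (Fin N) k) (hg : g * ginv = 1)
    (H1 : ∀ i i', i ≠ i' → π' i i' = true → ∀ j l, π j l = false →
      g i j * g i' l = g i l * g i' j)
    (H2 : ∀ j j', j ≠ j' → π j j' = true → ∀ i l, π' i l = false →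
      ginv j i * ginv j' l = ginv j l * ginv j' i)
    (i j l : Fin N) (hjl : π j l = false) (hij : g i j ≠ 0) (hil : g i l ≠ 0) :
    ∃ i₀, ginv i₀ i * g i i₀ ≠ 0 ∧ (∀ j, j ≠ i₀ → π i₀ j = false) ∧
      ∃ l, l ≠ i₀ ∧ g i l ≠ 0 := by
  have hg' : ginv * g = 1 := mul_eq_one_comm.mp hg
  -- no other row is equivalent to row `i`
  have hi : ∀ i', π' i i' = true → i' = i := by
    intro i' hi'
    by_contra hne
    have := s6_row π hπ g ginv hg i i' (Ne.symm hne) (H1 i i' (Ne.symm hne) hi') j l hij hil
    rw [hjl] at this
    exact absurd this (by simp)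
  obtain ⟨i₀, hi₀⟩ : ∃ m, g i m * ginv m i ≠ 0 := by
    by_contra hall
    push Not at hall
    have h1 : (g * ginv) i i = 1 := by rw [hg]; simp
    rw [Matrix.mul_apply, Finset.sum_eq_zero fun m _ => hall m] at h1
    exact zero_ne_one h1
  have hgi : g i i₀ ≠ 0 := left_ne_zero_of_mul hi₀
  have hgii : ginv i₀ i ≠ 0 := right_ne_zero_of_mul hi₀
  refine ⟨i₀, mul_ne_zero hgii hgi, ?_, ?_⟩
  · intro j' hj'
    by_contra hπj
    have hπj : π i₀ j' = true := by simpa using hπj
    have H := H2 i₀ j' (Ne.symm hj') hπj
    have hz : ∀ a, a ≠ i → ginv i₀ a = 0 := by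
      intro a ha
      by_contra hne
      exact ha (hi a (s6_row π' hπ' ginv g hg' i₀ j' (Ne.symm hj') H i a hgii hne))
    have hz' : ∀ a, a ≠ i → ginv j' a = 0 := by
      intro a ha
      by_contra hne
      exact ha (hi a (s6_star π' hπ' ginv g hg' i₀ j' (Ne.symm hj') H i a hgii hne))
    refine s6_not_prop ginv g hg' i₀ j' (Ne.symm hj') (ginv j' i / ginv i₀ i) fun a => ?_
    by_cases ha : a = i
    · subst ha
      field_simp
    · rw [hz a ha, hz' a ha, mul_zero]
  · by_cases hj : j = i₀
    · refine ⟨l, ?_, hil⟩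
      rintro rfl
      rw [hj] at hjl
      have : π l l = true := hπ.refl l
      rw [hjl] at this
      exact absurd this (by simp)
    · exact ⟨j, hj, hij⟩

end

end PL
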