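import Pool.Agent.Helper93.PL.St

/-!
Project PL, MODULE Eul: the Euler product
-/

set_option autoImplicit false

namespace Pool.Agent.Helper19.PL

open Finset
open Pool.Agent.Helper61.PV
open Pool.Agent.Helper93.PL

private lemma ev_congr {d : ℕ} (F : Fin (d + 1) → ℤ) (q a b : ℤ) (h : q ∣ a - b) :
    q ∣ ev F a - ev F b := by
  unfold ev
  rw [← Finset.sum_sub_distrib]
  refine Finset.dvd_sum ?_
  intro i _
  rw [← mul_sub]
  exact Dvd.dvd.mul_left (h.trans (sub_dvd_pow_sub_pow a b i)) _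

private lemma ev_iff {d : ℕ} (F : Fin (d + 1) → ℤ) (p a r : ℕ) (hpa : p ∣ a) :
    ((p : ℤ) ∣ ev F ((r % a : ℕ) : ℤ)) ↔ ((p : ℤ) ∣ ev F (r : ℤ)) := by
  have h : (p : ℤ) ∣ (r : ℤ) - ((r % a : ℕ) : ℤ) := by
    have h1 : (a : ℤ) ∣ (r : ℤ) - ((r % a : ℕ) : ℤ) := by
      refine ⟨((r / a : ℕ) : ℤ), ?_⟩
      have h2 := Nat.div_add_mod r a
      have h3 : ((a * (r / a) + r % a : ℕ) : ℤ) = (r : ℤ) := by rw [h2]
      push_cast at h3 ⊢
      linarith
    exact (Int.natCast_dvd_natCast.2 hpa).trans h1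
  have h2 := ev_congr F p _ _ h
  constructor
  · intro h3
    have h4 := dvd_add h2 h3
    simpa using h4
  · intro h3
    have h4 := dvd_sub h3 h2
    simpa using h4

private lemma card_crt (a b : ℕ) (hab : Nat.Coprime a b) (ha : 0 < a) (hb : 0 < b)
    (P Q : ℕ → Prop) [DecidablePred P] [DecidablePred Q] :
    #((range (a * b)).filter (fun r => P (r % a) ∧ Q (r % b))) =
      #((range a).filter P) * #((range b).filter Q) := by
  rw [← Finset.card_product]
  refine Finset.card_bij (fun r _ => (r % a, r % b)) ?_ ?_ ?_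
  · intro r hr
    rw [mem_filter, mem_range] at hr
    rw [mem_product, mem_filter, mem_filter, mem_range, mem_range]
    exact ⟨⟨Nat.mod_lt _ ha, hr.2.1⟩, ⟨Nat.mod_lt _ hb, hr.2.2⟩⟩
  · intro r hr s hs h
    rw [mem_filter, mem_range] at hr hs
    rw [Prod.mk.injEq] at h
    have h1 : r ≡ s [MOD a] := h.1
    have h2 : r ≡ s [MOD b] := h.2
    have h3 := (Nat.modEq_and_modEq_iff_modEq_mul hab).1 ⟨h1, h2⟩
    exact Nat.ModEq.eq_of_lt_of_lt h3 hr.1 hs.1
  · rintro ⟨u, v⟩ h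
    rw [mem_product, mem_filter, mem_filter, mem_range, mem_range] at h
    obtain ⟨k, hk1, hk2⟩ := Nat.chineseRemainder hab u v
    have e1 : k % (a * b) % a = u := by
      rw [Nat.mod_mod_of_dvd _ (Dvd.intro _ rfl), hk1, Nat.mod_eq_of_lt h.1.1]
    have e2 : k % (a * b) % b = v := by
      rw [Nat.mod_mod_of_dvd _ (Dvd.intro_left _ rfl), hk2, Nat.mod_eq_of_lt h.2.1]
    refine ⟨k % (a * b), ?_, ?_⟩
    · rw [mem_filter, mem_range, e1, e2]
      exact ⟨Nat.mod_lt _ (Nat.mul_pos ha hb), h.1.2, h.2.2⟩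
    · rw [e1, e2]

private lemma nz_le {d : ℕ} (F : Fin (d + 1) → ℤ) (p : ℕ) : Nz F p ≤ p := by
  unfold Nz
  exact (Finset.card_filter_le _ _).trans (le_of_eq (Finset.card_range p))

private lemma card_not {d : ℕ} (F : Fin (d + 1) → ℤ) (p : ℕ) :
    #((range p).filter (fun r : ℕ => ¬ (p : ℤ) ∣ ev F r)) = p - Nz F p := by
  have h := Finset.card_filter_add_card_filter_not (s := range p) (fun r : ℕ => (p : ℤ) ∣ ev F r)
  rw [Finset.card_range] at h
  unfold Nz
  omega

private lemma prod_S {d : ℕ} (F : Fin (d + 1) → ℤ) (S : Finset ℕ) (hS : ∀ p ∈ S, p.Prime) :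
    #((range (∏ p ∈ S, p)).filter (fun r : ℕ => ∀ p ∈ S, ¬ (p : ℤ) ∣ ev F r)) =
      ∏ p ∈ S, (p - Nz F p) ∧ Nat.totient (∏ p ∈ S, p) = ∏ p ∈ S, (p - 1) := by
  classical
  induction S using Finset.induction_on with
  | empty => simp
  | insert q S hq ih =>
    have hS' : ∀ p ∈ S, p.Prime := fun p hp => hS p (Finset.mem_insert_of_mem hp)
    have hqp : q.Prime := hS q (Finset.mem_insert_self q S)
    obtain ⟨ih1, ih2⟩ := ih hS'
    have hcop : Nat.Coprime q (∏ p ∈ S, p) := by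
      refine Nat.Coprime.prod_right ?_
      intro p hp
      refine (Nat.coprime_primes hqp (hS' p hp)).2 ?_
      rintro rfl
      exact hq hp
    have hW : 0 < ∏ p ∈ S, p := Finset.prod_pos (fun p hp => (hS' p hp).pos)
    rw [Finset.prod_insert hq, Finset.prod_insert hq, Finset.prod_insert hq]
    refine ⟨?_, ?_⟩
    · rw [← card_not F q, ← ih1, ← card_crt q _ hcop hqp.pos hW]
      refine congrArg Finset.card (Finset.filter_congr ?_)
      intro r _
      rw [Finset.forall_mem_insert, ev_iff F q q r dvd_rfl]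
      refine and_congr Iff.rfl ?_
      refine forall₂_congr ?_
      intro p hp
      rw [ev_iff F p _ r (Finset.dvd_prod_of_mem _ hp)]
    · rw [Nat.totient_mul hcop, ih2, Nat.totient_prime hqp]

private lemma primorial_Pw (w : ℕ) : primorial w = ∏ p ∈ Pw w, p := by
  unfold primorial Pw
  refine Finset.prod_congr ?_ (fun _ _ => rfl)
  ext p
  simp only [mem_filter, mem_range, mem_Icc]
  constructor
  · rintro ⟨h1, h2⟩
    exact ⟨⟨h2.one_lt.le, by omega⟩, h2⟩
  · rintro ⟨h1, h2⟩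
    exact ⟨by omega, h2⟩

theorem hEul : StEul := by
  intro w d F
  refine ⟨?_, nz_le F⟩
  have hP : ∀ p ∈ Pw w, p.Prime := fun p hp => (mem_filter.1 hp).2
  obtain ⟨h1, h2⟩ := prod_S F (Pw w) hP
  have hR : Rc (primorial w) F = ∏ p ∈ Pw w, (p - Nz F p) := by
    rw [← h1, ← primorial_Pw]
    unfold Rc
    refine congrArg Finset.card (Finset.filter_congr ?_)
    intro r _
    rw [primorial_Pw, Nat.coprime_prod_right_iff]
    refine forall₂_congr ?_
    intro p hp
    rw [Nat.coprime_comm, Nat.Prime.coprime_iff_not_dvd (hP p hp), ← Int.natCast_dvd]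
  rw [hR, primorial_Pw, h2]
  unfold eu
  rw [Finset.prod_coe_sort (Pw w) (fun p => (1 - (Nz F p : ℝ) / p) / (1 - 1 / (p : ℝ)))]
  push_cast
  rw [← Finset.prod_div_distrib]
  refine Finset.prod_congr rfl ?_
  intro p hp
  have hp1 : 1 < p := (hP p hp).one_lt
  have hp1' : (1 : ℝ) < p := by exact_mod_cast hp1
  rw [Nat.cast_sub (nz_le F p), Nat.cast_sub hp1.le, Nat.cast_one]
  have h3 : (p : ℝ) ≠ 0 := by linarith
  have h4 : (p : ℝ) - 1 ≠ 0 := by linarith
  field_simp

end Pool.Agent.Helper19.PL
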